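import Pool.Agent.N20.EW.Stm

/-!
# Project EW (helper20), CMB (helper667): the combinatorial induction over the subgroups of a
cyclic group
-/

set_option autoImplicit false

open scoped Classical BigOperators

noncomputable section

namespace Pool.Agent.N667.EWCMB

open Pool.Agent.N20.EW

/-- CMB -/
theorem CMB : S_CMB := by
  intro Ω A _ _ _ P w T U₀ hU₀ hP1 hyp
  haveI : Fintype Ω := Fintype.ofFinite Ω
  haveI : Fintype A := Fintype.ofFinite A
  simp only [finsum_eq_sum_of_fintype] at hyp ⊢
  have main : ∀ U : Subgroup A, U ≤ U₀ → ∑ ω : Ω, (if U ≤ T ω then w ω else 0) = 0 := by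
    intro U
    induction U using WellFoundedLT.induction with
    | _ U ih =>
      intro hU
      have h0 := hyp U hU
      have e1 : ∀ ω : Ω, w ω * (Nat.card {a : A × A // (a.1 ∈ T ω ∧ a.1 ∈ U) ∧
          (a.2 ∈ T ω ∧ a.2 ∈ U) ∧ P a.2} : ℤ) = ∑ a : A × A, (if a.1 ∈ U ∧ a.2 ∈ U ∧ P a.2 then
            (if Subgroup.closure {a.1, a.2} ≤ T ω then w ω else 0) else 0) := by
        intro ω
        have e2 : ∀ a : A × A, (if a.1 ∈ U ∧ a.2 ∈ U ∧ P a.2 then
            (if Subgroup.closure {a.1, a.2} ≤ T ω then w ω else 0) else 0) =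
            w ω * (if (a.1 ∈ T ω ∧ a.1 ∈ U) ∧ (a.2 ∈ T ω ∧ a.2 ∈ U) ∧ P a.2 then (1 : ℤ) else 0) := by
          intro a
          have e3 : Subgroup.closure {a.1, a.2} ≤ T ω ↔ a.1 ∈ T ω ∧ a.2 ∈ T ω := by
            rw [Subgroup.closure_le]
            constructor
            · intro h
              exact ⟨h (by simp), h (by simp)⟩
            · rintro ⟨ha, hb⟩ t ht
              rcases ht with rfl | rfl
              exacts [ha, hb]
          by_cases a1 : a.1 ∈ U ∧ a.2 ∈ U ∧ P a.2
          · rw [if_pos a1]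
            by_cases a2 : a.1 ∈ T ω ∧ a.2 ∈ T ω
            · rw [if_pos (e3.2 a2), if_pos ⟨⟨a2.1, a1.1⟩, ⟨a2.2, a1.2.1⟩, a1.2.2⟩, mul_one]
            · rw [if_neg (fun h => a2 (e3.1 h)), if_neg (fun h => a2 ⟨h.1.1, h.2.1.1⟩), mul_zero]
          · rw [if_neg a1, if_neg (fun h => a1 ⟨h.1.2, h.2.1.2, h.2.2⟩), mul_zero]
        rw [Finset.sum_congr rfl fun a _ => e2 a, ← Finset.mul_sum, Finset.sum_boole]
        congr 2
        rw [Nat.card_eq_fintype_card, Fintype.card_subtype]
      rw [Finset.sum_congr rfl fun ω _ => e1 ω, Finset.sum_comm] at h0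
      have h3 : ∀ a : A × A, ∑ ω : Ω, (if a.1 ∈ U ∧ a.2 ∈ U ∧ P a.2 then
          (if Subgroup.closure {a.1, a.2} ≤ T ω then w ω else 0) else 0) =
          (if (a.1 ∈ U ∧ a.2 ∈ U ∧ P a.2) ∧ Subgroup.closure {a.1, a.2} = U then 1 else 0) *
            ∑ ω : Ω, (if U ≤ T ω then w ω else 0) := by
        intro a
        by_cases a1 : a.1 ∈ U ∧ a.2 ∈ U ∧ P a.2
        · simp only [if_pos a1]
          by_cases h4 : Subgroup.closure {a.1, a.2} = U
          · rw [if_pos ⟨a1, h4⟩, h4, one_mul]
          · have h5 : Subgroup.closure {a.1, a.2} ≤ U := by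
              rw [Subgroup.closure_le]
              intro t ht
              rcases ht with rfl | rfl
              exacts [a1.1, a1.2.1]
            have h6 : Subgroup.closure {a.1, a.2} < U := lt_of_le_of_ne h5 h4
            rw [if_neg (fun h => h4 h.2), zero_mul]
            exact ih _ h6 (h6.le.trans hU)
        · simp only [if_neg a1]
          rw [if_neg (fun h => a1 h.1), zero_mul, Finset.sum_const_zero]
      rw [Finset.sum_congr rfl fun a _ => h3 a, ← Finset.sum_mul] at h0
      rcases mul_eq_zero.1 h0 with h4 | h4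
      · exfalso
        haveI : IsCyclic U := isCyclic_of_injective (Subgroup.inclusion hU)
          (Subgroup.inclusion_injective hU)
        obtain ⟨g0, hg0⟩ := IsCyclic.exists_generator (α := U)
        have h5 : ∀ a ∈ (Finset.univ : Finset (A × A)), (0 : ℤ) ≤
            (if (a.1 ∈ U ∧ a.2 ∈ U ∧ P a.2) ∧ Subgroup.closure {a.1, a.2} = U then 1 else 0) :=
          fun a _ => by split_ifs <;> norm_num
        have h6 := (Finset.sum_eq_zero_iff_of_nonneg h5).1 h4 ((g0 : A), 1) (Finset.mem_univ _)
        have h7 : Subgroup.closure {(g0 : A), (1 : A)} = U := by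
          apply le_antisymm
          · rw [Subgroup.closure_le]
            intro t ht
            rcases ht with rfl | rfl
            exacts [g0.2, U.one_mem]
          · intro x hx
            obtain ⟨i, hi⟩ := Subgroup.mem_zpowers_iff.1 (hg0 ⟨x, hx⟩)
            have h8 : (g0 : A) ^ i = x := by
              have := congrArg (fun y : U => (y : A)) hi
              simpa using this
            rw [← h8]
            exact Subgroup.zpow_mem _ (Subgroup.subset_closure (by simp)) i
        rw [if_pos ⟨⟨g0.2, U.one_mem, hP1⟩, h7⟩] at h6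
        exact one_ne_zero h6
      · exact h4
  exact main U₀ le_rfl

end Pool.Agent.N667.EWCMB
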