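import Mathlib
import Pool.Agent.N604.MW.Stm10
import Pool.Agent.N604.MW.KMeas
import Pool.Agent.N604.MW.DMeas
import Pool.Agent.N749.KW_DSup

/-!
# AD/AMOM: moments of the contribution of the large frequencies (helper667, after KW/DMOM of helper400
and KV/MOM of helper490)
-/

set_option autoImplicit false

namespace Pool.Agent.N667.ADAmom

open MeasureTheory Finset Pool.Agent.N604.MW
open scoped ENNReal

theorem wt_nonneg (x : ℕ) : 0 ≤ wt x := by
  unfold wt
  split_ifs <;> norm_num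

theorem wt_le (x : ℕ) : wt x ≤ 2 := by
  unfold wt
  split_ifs <;> norm_num

theorem Blk_sub (a : ℕ) : Blk a ⊆ Finset.Icc (XB a) (2 * XB a) := by
  unfold Blk XB
  split_ifs with h
  · simp
  · obtain ⟨b, rfl⟩ : ∃ b, a = b + 1 := ⟨a - 1, by omega⟩
    intro x hx
    rw [Finset.mem_Ico, Nat.add_sub_cancel, pow_succ] at hx
    rw [Finset.mem_Icc, Nat.add_sub_cancel]
    omega

theorem SX_continuous (k a : ℕ) : Continuous (SX k a) := by
  unfold SX
  refine continuous_finsetSum _ fun x _ => ?_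
  exact continuous_const.mul (e_continuous.comp (continuous_id.mul continuous_const))

theorem SX_neg (k a : ℕ) (y : ℝ) : SX k a (-y) = (starRingEnd ℂ) (SX k a y) := by
  unfold SX
  rw [map_sum]
  refine Finset.sum_congr rfl fun x _ => ?_
  rw [map_mul, Complex.conj_ofReal, ← e_neg, neg_mul]

theorem SX_norm (k a : ℕ) (y : ℝ) : ‖SX k a y‖ ≤ 2 * (Blk a).card := by
  unfold SX
  refine (norm_sum_le _ _).trans ?_
  refine (Finset.sum_le_card_nsmul _ _ 2 fun x _ => ?_).trans ?_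
  · rw [norm_mul, e_norm, mul_one, Complex.norm_real, Real.norm_eq_abs, abs_of_nonneg (wt_nonneg x)]
    exact wt_le x
  · rw [nsmul_eq_mul, mul_comm]

theorem sq_continuous : Continuous N604.MW.sq := by
  unfold N604.MW.sq
  exact (Real.continuous_sinc.comp (continuous_const.mul continuous_id)).pow 2

theorem sq_neg (t : ℝ) : N604.MW.sq (-t) = N604.MW.sq t := by
  unfold N604.MW.sq
  rw [mul_neg, Real.sinc_neg]

theorem sq_nonneg' (t : ℝ) : 0 ≤ N604.MW.sq t := by
  unfold N604.MW.sq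
  positivity

theorem e_mul_integrable (t : ℝ) : Integrable (fun x : ℝ => e (x * t)) G1 := by
  refine Integrable.of_bound (C := 1) ?_ (ae_of_all _ fun x => (e_norm _).le)
  exact (e_continuous.comp (continuous_id.mul continuous_const)).aestronglyMeasurable

theorem int_prod_SX (n k a : ℕ) (b : Fin n → ℝ) :
    ‖∫ x, ∏ j, SX k a (x * b j) ∂G1‖ ≤ 2 ^ n * GD n k (XB a) b := by
  have h1 : ∀ x : ℝ, ∏ j, SX k a (x * b j) = ∑ z ∈ Fintype.piFinset (fun _ : Fin n => Blk a),
      ((∏ j, wt (z j) : ℝ) : ℂ) * e (x * ∑ j, b j * (z j : ℝ) ^ k) := by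
    intro x
    unfold SX
    rw [Finset.prod_univ_sum]
    refine Finset.sum_congr rfl fun z _ => ?_
    rw [Finset.prod_mul_distrib, Complex.ofReal_prod]
    congr 1
    rw [Finset.mul_sum, Pool.Agent.N749.KWDSup.e_sum]
    exact Finset.prod_congr rfl fun j _ => by rw [mul_assoc]
  simp_rw [h1]
  rw [integral_finsetSum _ fun z _ => (e_mul_integrable _).const_mul _]
  refine (norm_sum_le _ _).trans ?_
  unfold GD
  rw [Finset.mul_sum]
  refine (Finset.sum_le_sum fun z _ => ?_ : _ ≤ ∑ z ∈ Fintype.piFinset (fun _ : Fin n => Blk a),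
    2 ^ n * Real.exp (-(2 * Real.pi ^ 2 * (∑ j, b j * (z j : ℝ) ^ k) ^ 2))).trans ?_
  · rw [integral_const_mul, Pool.Agent.N749.KWDSup.int_e, norm_mul, Complex.norm_real,
      Complex.norm_real, Real.norm_eq_abs, Real.norm_eq_abs,
      abs_of_nonneg (Finset.prod_nonneg fun j _ => wt_nonneg _), abs_of_pos (Real.exp_pos _)]
    refine mul_le_mul_of_nonneg_right ?_ (Real.exp_pos _).le
    refine (Finset.prod_le_prod (fun j _ => wt_nonneg _) fun j _ => wt_le _).trans ?_
    simp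
  · refine Finset.sum_le_sum_of_subset_of_nonneg
      (Fintype.piFinset_subset _ _ fun _ => Blk_sub a) fun z _ _ => by positivity

section

variable (s k : ℕ) (a : Fin s → ℕ) (N : ℤ)

/-- the function under the integral -/
noncomputable def ff (α : Fin s → ℝ) (t : ℝ) : ℂ :=
  (N604.MW.sq t : ℂ) * (∏ i, SX k (a i) (α i * t)) * e (-(t * N))

theorem ff_continuous : Continuous fun p : (Fin s → ℝ) × ℝ => ff s k a N p.1 p.2 := by
  unfold ff
  refine ((Complex.continuous_ofReal.comp (sq_continuous.comp continuous_snd)).mul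
    (continuous_finsetProd _ fun i _ => (SX_continuous k (a i)).comp ?_)).mul (e_continuous.comp ?_)
  · fun_prop
  · fun_prop

/-- the bound for the product -/
noncomputable def CC : ℝ := ∏ i, (2 * ((Blk (a i)).card : ℝ))

theorem ff_norm_le (α : Fin s → ℝ) (t : ℝ) : ‖ff s k a N α t‖ ≤ CC s a * N604.MW.sq t := by
  unfold ff CC
  rw [norm_mul, e_norm, mul_one, norm_mul, norm_prod, Complex.norm_real, Real.norm_eq_abs,
    abs_of_nonneg (sq_nonneg' t), mul_comm]
  exact mul_le_mul_of_nonneg_right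
    (Finset.prod_le_prod (fun i _ => norm_nonneg _) fun i _ => SX_norm k (a i) _) (sq_nonneg' t)

theorem ff_neg (α : Fin s → ℝ) (t : ℝ) :
    ff s k a N α (-t) = (starRingEnd ℂ) (ff s k a N α t) := by
  unfold ff
  rw [map_mul, map_mul, map_prod, ← e_neg, sq_neg, Complex.conj_ofReal]
  congr 1
  · congr 1
    exact Finset.prod_congr rfl fun i _ => by rw [← SX_neg, mul_neg]
  · congr 1
    ring

theorem meas_R (η : ℝ) : MeasurableSet {t : ℝ | η ≤ |t|} :=
  measurableSet_le measurable_const measurable_norm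

theorem EA_eq (η : ℝ) (α : Fin s → ℝ) :
    EA s k a η α N = ∫ t in {t : ℝ | η ≤ |t|}, ff s k a N α t := rfl

theorem EA_conj (η : ℝ) (α : Fin s → ℝ) :
    (starRingEnd ℂ) (EA s k a η α N) = EA s k a η α N := by
  rw [EA_eq, ← integral_conj, ← integral_indicator (meas_R _),
    ← integral_indicator (meas_R _),
    ← integral_neg_eq_self (fun t => ({t : ℝ | η ≤ |t|}).indicator (fun t => ff s k a N α t) t)]
  refine integral_congr_ae (ae_of_all _ fun t => ?_)
  have h1 : -t ∈ {t : ℝ | η ≤ |t|} ↔ t ∈ {t : ℝ | η ≤ |t|} := by simp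
  by_cases hb : t ∈ {t : ℝ | η ≤ |t|}
  · simp only [Set.indicator_of_mem hb, Set.indicator_of_mem (h1.2 hb)]
    exact (ff_neg s k a N α t).symm
  · simp only [Set.indicator_of_notMem hb, Set.indicator_of_notMem (fun h => hb (h1.1 h))]

theorem EA_pow (η : ℝ) (α : Fin s → ℝ) (n : ℕ) :
    EA s k a η α N ^ n = ∫ b : Fin n → ℝ, ∏ j, ff s k a N α (b j)
      ∂(Measure.pi fun _ : Fin n => volume.restrict {t : ℝ | η ≤ |t|}) := by
  rw [integral_fintype_prod_eq_pow (fun t => ff s k a N α t), Fintype.card_fin, EA_eq]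

theorem EA_norm_pow (η : ℝ) (α : Fin s → ℝ) (m : ℕ) :
    ((‖EA s k a η α N‖ ^ (2 * m) : ℝ) : ℂ) = EA s k a η α N ^ (2 * m) := by
  obtain ⟨z, hz⟩ : ∃ z, z = EA s k a η α N := ⟨_, rfl⟩
  have h1 : (starRingEnd ℂ) z = z := by
    rw [hz]
    exact EA_conj s k a N η α
  rw [← hz]
  have h2 : ((z.re : ℝ) : ℂ) = z := Complex.conj_eq_iff_re.1 h1
  rw [← h2, Complex.norm_real, Real.norm_eq_abs, pow_mul, sq_abs, ← pow_mul]
  push_cast
  rfl

/-- the expectation of the product -/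
theorem inner_eq (n : ℕ) (b : Fin n → ℝ) :
    ∫ α, ∏ j, ff s k a N α (b j) ∂(GM s) =
      (∏ j, ((N604.MW.sq (b j) : ℂ) * e (-(b j * N)))) * ∏ i : Fin s, ∫ x, ∏ j, SX k (a i) (x * b j) ∂G1 := by
  have h1 : ∀ α : Fin s → ℝ, ∏ j, ff s k a N α (b j) =
      (∏ j, ((N604.MW.sq (b j) : ℂ) * e (-(b j * N)))) * ∏ i, ∏ j, SX k (a i) (α i * b j) := by
    intro α
    unfold ff
    rw [Finset.prod_comm, ← Finset.prod_mul_distrib]
    exact Finset.prod_congr rfl fun j _ => by ring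
  simp_rw [h1]
  rw [integral_const_mul]
  congr 1
  exact integral_fintype_prod_eq_prod (fun (i : Fin s) (x : ℝ) => ∏ j, SX k (a i) (x * b j))

theorem norm_inner (n : ℕ) (b : Fin n → ℝ) :
    ‖∫ α, ∏ j, ff s k a N α (b j) ∂(GM s)‖ ≤
      2 ^ (n * s) * ((∏ j, N604.MW.sq (b j)) * ∏ i, GD n k (XB (a i)) b) := by
  rw [inner_eq, norm_mul, norm_prod, norm_prod]
  have h1 : ∏ j, ‖(N604.MW.sq (b j) : ℂ) * e (-(b j * N))‖ = ∏ j, N604.MW.sq (b j) :=
    Finset.prod_congr rfl fun j _ => by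
      rw [norm_mul, e_norm, mul_one, Complex.norm_real, Real.norm_eq_abs, abs_of_nonneg (sq_nonneg' _)]
  rw [h1]
  have h2 : ∏ i : Fin s, ‖∫ x, ∏ j, SX k (a i) (x * b j) ∂G1‖ ≤
      2 ^ (n * s) * ∏ i, GD n k (XB (a i)) b := by
    refine (Finset.prod_le_prod (fun i _ => norm_nonneg _) fun i _ => int_prod_SX n k (a i) b).trans ?_
    rw [Finset.prod_mul_distrib]
    simp [pow_mul]
  calc (∏ j, N604.MW.sq (b j)) * ∏ i : Fin s, ‖∫ x, ∏ j, SX k (a i) (x * b j) ∂G1‖
      ≤ (∏ j, N604.MW.sq (b j)) * (2 ^ (n * s) * ∏ i, GD n k (XB (a i)) b) :=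
        mul_le_mul_of_nonneg_left h2 (Finset.prod_nonneg fun j _ => sq_nonneg' _)
    _ = _ := by ring

end

theorem amom (h : S_ATRI) : S_AMOM := by
  intro s m hs hm k a η N hη
  obtain ⟨hsi, hsq, -⟩ := h
  obtain ⟨n, hn⟩ : ∃ n, n = 2 * m := ⟨_, rfl⟩
  have hmeas : Measurable fun p : (Fin s → ℝ) × (Fin n → ℝ) => ∏ j, ff s k a N p.1 (p.2 j) := by
    refine Finset.measurable_prod _ fun j _ => ?_
    exact Measurable.comp (g := fun p : (Fin s → ℝ) × ℝ => ff s k a N p.1 p.2)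
      (f := fun p : (Fin s → ℝ) × (Fin n → ℝ) => (p.1, p.2 j)) (ff_continuous s k a N).measurable (by fun_prop)
  have hI : Integrable (fun b : Fin n → ℝ => ∏ j, N604.MW.sq (b j))
      (Measure.pi fun _ : Fin n => volume.restrict {t : ℝ | η ≤ |t|}) :=
    Integrable.fintype_prod (f := fun _ : Fin n => N604.MW.sq) fun _ => hsi.integrableOn
  have hint : Integrable (Function.uncurry fun (α : Fin s → ℝ) (b : Fin n → ℝ) =>
      ∏ j, ff s k a N α (b j)) ((GM s).prod (Measure.pi fun _ : Fin n => volume.restrict {t : ℝ | η ≤ |t|})) := by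
    refine ((hI.comp_snd (GM s)).const_mul (CC s a ^ n)).mono' hmeas.aestronglyMeasurable
      (ae_of_all _ fun p => ?_)
    show ‖∏ j, ff s k a N p.1 (p.2 j)‖ ≤ CC s a ^ n * ∏ j, N604.MW.sq (p.2 j)
    rw [norm_prod]
    refine (Finset.prod_le_prod (fun j _ => norm_nonneg _) fun j _ => ff_norm_le s k a N p.1 (p.2 j)).trans ?_
    rw [Finset.prod_mul_distrib]
    simp
  have hEi : Integrable (fun α => ‖EA s k a η α N‖ ^ (2 * m)) (GM s) := by
    have h1 := hint.integral_prod_left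
    refine Integrable.congr (f := fun α => ‖∫ b : Fin n → ℝ, ∏ j, ff s k a N α (b j)
      ∂(Measure.pi fun _ : Fin n => volume.restrict {t : ℝ | η ≤ |t|})‖) h1.norm (ae_of_all _ fun α => ?_)
    simp only
    rw [← EA_pow, norm_pow, hn]
  have e1 : ∫⁻ α, ENNReal.ofReal (‖EA s k a η α N‖ ^ (2 * m)) ∂(GM s) =
      ‖∫ b : Fin n → ℝ, (∫ α, ∏ j, ff s k a N α (b j) ∂(GM s))
        ∂(Measure.pi fun _ : Fin n => volume.restrict {t : ℝ | η ≤ |t|})‖ₑ := by
    rw [← integral_integral_swap hint, ← ofReal_integral_eq_lintegral_ofReal hEi (ae_of_all _ fun α => by positivity)]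
    have h1 : ∫ α, (∫ b : Fin n → ℝ, ∏ j, ff s k a N α (b j)
        ∂(Measure.pi fun _ : Fin n => volume.restrict {t : ℝ | η ≤ |t|})) ∂(GM s) =
        ((∫ α, ‖EA s k a η α N‖ ^ (2 * m) ∂(GM s) : ℝ) : ℂ) := by
      refine Eq.trans ?_ integral_complex_ofReal
      refine integral_congr_ae (ae_of_all _ fun α => ?_)
      simp only
      rw [← EA_pow, hn]
      exact (EA_norm_pow s k a N η α m).symm
    rw [h1, ← ofReal_norm, Complex.norm_real, Real.norm_eq_abs, abs_of_nonneg]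
    exact integral_nonneg fun α => by positivity
  rw [e1]
  refine (enorm_integral_le_lintegral_enorm _).trans ?_
  have hpi : (Measure.pi fun _ : Fin n => volume.restrict {t : ℝ | η ≤ |t|}) =
      (volume : Measure (Fin n → ℝ)).restrict {γ : Fin n → ℝ | ∀ j, η ≤ |γ j|} := by
    rw [volume_pi, ← Measure.restrict_pi_pi]
    congr 1
    ext γ
    simp
  have hSm : MeasurableSet {γ : Fin n → ℝ | ∀ j, η ≤ |γ j|} := by
    have : {γ : Fin n → ℝ | ∀ j, η ≤ |γ j|} = Set.univ.pi fun _ => {t : ℝ | η ≤ |t|} := by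
      ext γ
      simp
    rw [this]
    exact MeasurableSet.univ_pi fun _ => meas_R η
  rw [hpi]
  subst hn
  rw [lintegral_indicator hSm, ← lintegral_const_mul' _ _ ENNReal.ofReal_ne_top]
  refine lintegral_mono fun b => ?_
  show ‖∫ α, ∏ j, ff s k a N α (b j) ∂(GM s)‖ₑ ≤ _
  rw [← ofReal_norm, ← ENNReal.ofReal_mul (by positivity)]
  refine ENNReal.ofReal_le_ofReal ((norm_inner s k a N (2 * m) b).trans ?_)
  refine mul_le_mul_of_nonneg_left (mul_le_mul_of_nonneg_right ?_ ?_) (by positivity)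
  · exact Finset.prod_le_prod (fun j _ => sq_nonneg' _) fun j _ => (hsq _).2.2
  · exact Finset.prod_nonneg fun i _ => GD_nonneg _ _ _ _

end Pool.Agent.N667.ADAmom
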