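import Mathlib
import Pool.Agent.N604.MW.Stm13

/-!
# Project AP (helper604), task PLAT (helper667): the weighted number of prime points
-/

set_option autoImplicit false

namespace Pool.Agent.N667.AP

open Finset Pool.Agent.N604.MW

section general

variable {ι : Type}

/-- weighted number of points -/
noncomputable def TT {s : ℕ} (A : Finset ι) (w : ι → ℝ) (f : Fin s → ι → ℝ) (y : ℝ) : ℝ :=
  ∑ x ∈ Fintype.piFinset (fun _ : Fin s => A), if ∑ i, f i (x i) < y then ∏ i, w (x i) else 0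

/-- one variable -/
noncomputable def S1 (A : Finset ι) (w : ι → ℝ) (f : ι → ℝ) (y : ℝ) : ℝ :=
  ∑ x ∈ A, if f x < y then w x else 0

theorem TT_zero (A : Finset ι) (w : ι → ℝ) (f : Fin 0 → ι → ℝ) (y : ℝ) :
    TT A w f y = if 0 < y then 1 else 0 := by
  unfold TT
  simp

theorem TT_succ {s : ℕ} (A : Finset ι) (w : ι → ℝ) (f : Fin (s + 1) → ι → ℝ) (y : ℝ) :
    TT A w f y = ∑ t ∈ A, w t * TT A w (fun i => f i.succ) (y - f 0 t) := by
  unfold TT
  simp only [Finset.mul_sum]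
  rw [← Finset.sum_product']
  refine (Finset.sum_nbij' (fun p : ι × (Fin s → ι) => (Fin.cons p.1 p.2 : Fin (s + 1) → ι))
    (fun x => (x 0, Fin.tail x)) ?_ ?_ ?_ ?_ ?_).symm
  · intro p hp
    rw [Finset.mem_product] at hp
    rw [Fintype.mem_piFinset]
    intro i
    refine Fin.cases ?_ ?_ i
    · simpa using hp.1
    · intro j
      simpa using (Fintype.mem_piFinset.1 hp.2) j
  · intro x hx
    rw [Fintype.mem_piFinset] at hx
    rw [Finset.mem_product, Fintype.mem_piFinset]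
    exact ⟨hx 0, fun j => hx j.succ⟩
  · intro p _
    simp
  · intro x _
    exact Fin.cons_self_tail x
  · intro p hp
    simp only [Fin.sum_univ_succ, Fin.prod_univ_succ, Fin.cons_zero, Fin.cons_succ]
    by_cases h : f 0 p.1 + ∑ i, f i.succ (p.2 i) < y
    · rw [if_pos h, if_pos (by linarith)]
    · rw [if_neg h, if_neg (by intro h'; exact h (by linarith)), mul_zero]

theorem TT_nonpos {s : ℕ} (A : Finset ι) (w : ι → ℝ) (f : Fin s → ι → ℝ)
    (hf : ∀ i x, 0 ≤ f i x) {y : ℝ} (hy : y ≤ 0) : TT A w f y = 0 := by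
  unfold TT
  refine Finset.sum_eq_zero fun x _ => if_neg (not_lt.2 (hy.trans ?_))
  exact Finset.sum_nonneg fun i _ => hf i _

theorem TT_bnd {A : Finset ι} {w : ι → ℝ} (hw : ∀ x, 0 ≤ w x) {M Y : ℝ} (hM : 0 ≤ M) :
    ∀ (s : ℕ) (f : Fin s → ι → ℝ), (∀ i x, 0 ≤ f i x) → (∀ i, ∀ y ≤ Y, S1 A w (f i) y ≤ M) →
      ∀ y ≤ Y, |TT A w f y| ≤ M ^ s := by
  intro s
  induction s with
  | zero =>
    intro f _ _ y _
    rw [TT_zero, pow_zero]
    split_ifs <;> simp
  | succ s ih =>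
    intro f hf hS y hy
    rw [TT_succ]
    have h1 : ∀ t ∈ A, |w t * TT A w (fun i => f i.succ) (y - f 0 t)| ≤
        (if f 0 t < y then w t else 0) * M ^ s := by
      intro t _
      split_ifs with h
      · rw [abs_mul, abs_of_nonneg (hw t)]
        exact mul_le_mul_of_nonneg_left (ih (fun i => f i.succ) (fun i x => hf i.succ x) (fun i => hS i.succ) _
          (by have := hf 0 t; linarith)) (hw t)
      · rw [TT_nonpos A w (fun i => f i.succ) (fun i x => hf i.succ x) (by linarith)]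
        simp
    calc |∑ t ∈ A, w t * TT A w (fun i => f i.succ) (y - f 0 t)|
        ≤ ∑ t ∈ A, |w t * TT A w (fun i => f i.succ) (y - f 0 t)| := Finset.abs_sum_le_sum_abs _ _
      _ ≤ ∑ t ∈ A, (if f 0 t < y then w t else 0) * M ^ s := Finset.sum_le_sum h1
      _ = S1 A w (f 0) y * M ^ s := by rw [S1, Finset.sum_mul]
      _ ≤ M * M ^ s := mul_le_mul_of_nonneg_right (hS 0 y hy) (by positivity)
      _ = M ^ (s + 1) := by ring

theorem swap {A : Finset ι} {w : ι → ℝ} (hw : ∀ x, 0 ≤ w x) {M Y E : ℝ} (hM : 0 ≤ M)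
    (g f0 : ι → ℝ) (hf0 : ∀ x, 0 ≤ f0 x) (hE : ∀ y ≤ Y, |S1 A g f0 y| ≤ E) :
    ∀ (s : ℕ) (f : Fin s → ι → ℝ), (∀ i x, 0 ≤ f i x) → (∀ i, ∀ y ≤ Y, S1 A w (f i) y ≤ M) →
      ∀ y ≤ Y, |∑ t ∈ A, g t * TT A w f (y - f0 t)| ≤ E * M ^ s := by
  have hE0 : 0 ≤ E := (abs_nonneg _).trans (hE Y le_rfl)
  intro s
  induction s with
  | zero =>
    intro f _ _ y hy
    rw [pow_zero, mul_one]
    have h1 : ∑ t ∈ A, g t * TT A w f (y - f0 t) = S1 A g f0 y := by
      unfold S1
      refine Finset.sum_congr rfl fun t _ => ?_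
      rw [TT_zero]
      by_cases h : f0 t < y
      · rw [if_pos h, if_pos (by linarith), mul_one]
      · rw [if_neg h, if_neg (by intro h'; exact h (by linarith)), mul_zero]
    rw [h1]
    exact hE y hy
  | succ s ih =>
    intro f hf hS y hy
    have h0 : ∑ t ∈ A, g t * TT A w f (y - f0 t) =
        ∑ u ∈ A, w u * ∑ t ∈ A, g t * TT A w (fun i => f i.succ) ((y - f 0 u) - f0 t) := by
      simp only [TT_succ A w f, Finset.mul_sum]
      rw [Finset.sum_comm]
      refine Finset.sum_congr rfl fun u _ => Finset.sum_congr rfl fun t _ => ?_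
      rw [show y - f0 t - f 0 u = y - f 0 u - f0 t by ring]
      ring
    rw [h0]
    have h1 : ∀ u ∈ A, |w u * ∑ t ∈ A, g t * TT A w (fun i => f i.succ) ((y - f 0 u) - f0 t)| ≤
        (if f 0 u < y then w u else 0) * (E * M ^ s) := by
      intro u _
      split_ifs with h
      · rw [abs_mul, abs_of_nonneg (hw u)]
        exact mul_le_mul_of_nonneg_left (ih (fun i => f i.succ) (fun i x => hf i.succ x) (fun i => hS i.succ) _
          (by have := hf 0 u; linarith)) (hw u)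
      · have h2 : ∑ t ∈ A, g t * TT A w (fun i => f i.succ) ((y - f 0 u) - f0 t) = 0 := by
          refine Finset.sum_eq_zero fun t _ => ?_
          rw [TT_nonpos A w (fun i => f i.succ) (fun i x => hf i.succ x) (by have := hf0 t; linarith), mul_zero]
        rw [h2]
        simp
    calc |∑ u ∈ A, w u * ∑ t ∈ A, g t * TT A w (fun i => f i.succ) ((y - f 0 u) - f0 t)|
        ≤ ∑ u ∈ A, |w u * ∑ t ∈ A, g t * TT A w (fun i => f i.succ) ((y - f 0 u) - f0 t)| :=
          Finset.abs_sum_le_sum_abs _ _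
      _ ≤ ∑ u ∈ A, (if f 0 u < y then w u else 0) * (E * M ^ s) := Finset.sum_le_sum h1
      _ = S1 A w (f 0) y * (E * M ^ s) := by rw [S1, Finset.sum_mul]
      _ ≤ M * (E * M ^ s) := mul_le_mul_of_nonneg_right (hS 0 y hy) (by positivity)
      _ = E * M ^ (s + 1) := by ring

theorem diff {A : Finset ι} {v w : ι → ℝ} (hv : ∀ x, 0 ≤ v x) (hw : ∀ x, 0 ≤ w x) {M Y E : ℝ}
    (hM : 0 ≤ M) (hE0 : 0 ≤ E) :
    ∀ (s : ℕ) (f : Fin s → ι → ℝ), (∀ i x, 0 ≤ f i x) → (∀ i, ∀ y ≤ Y, S1 A v (f i) y ≤ M) →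
      (∀ i, ∀ y ≤ Y, S1 A w (f i) y ≤ M) →
      (∀ i, ∀ y ≤ Y, |S1 A (fun x => v x - w x) (f i) y| ≤ E) →
      ∀ y ≤ Y, M * |TT A v f y - TT A w f y| ≤ s * E * M ^ s := by
  intro s
  induction s with
  | zero =>
    intro f _ _ _ _ y hy
    rw [TT_zero, TT_zero]
    simp
  | succ s ih =>
    intro f hf hSv hSw hSE y hy
    have h0 : TT A v f y - TT A w f y =
        ∑ t ∈ A, v t * (TT A v (fun i => f i.succ) (y - f 0 t) -
          TT A w (fun i => f i.succ) (y - f 0 t)) +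
        ∑ t ∈ A, (v t - w t) * TT A w (fun i => f i.succ) (y - f 0 t) := by
      rw [TT_succ, TT_succ, ← Finset.sum_sub_distrib, ← Finset.sum_add_distrib]
      refine Finset.sum_congr rfl fun t _ => ?_
      ring
    have h1 : ∀ t ∈ A, M * |v t * (TT A v (fun i => f i.succ) (y - f 0 t) -
          TT A w (fun i => f i.succ) (y - f 0 t))| ≤
        (if f 0 t < y then v t else 0) * (s * E * M ^ s) := by
      intro t _
      split_ifs with h
      · rw [abs_mul, abs_of_nonneg (hv t)]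
        have h3 := mul_le_mul_of_nonneg_left (ih (fun i => f i.succ) (fun i x => hf i.succ x) (fun i => hSv i.succ)
          (fun i => hSw i.succ) (fun i => hSE i.succ) (y - f 0 t)
          (by have := hf 0 t; linarith)) (hv t)
        calc _ = v t * (M * |TT A v (fun i => f i.succ) (y - f 0 t) -
              TT A w (fun i => f i.succ) (y - f 0 t)|) := by ring
          _ ≤ _ := h3
      · rw [TT_nonpos A v (fun i => f i.succ) (fun i x => hf i.succ x) (by linarith),
          TT_nonpos A w (fun i => f i.succ) (fun i x => hf i.succ x) (by linarith)]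
        simp
    have h2 : M * |∑ t ∈ A, v t * (TT A v (fun i => f i.succ) (y - f 0 t) -
          TT A w (fun i => f i.succ) (y - f 0 t))| ≤ M * (s * E * M ^ s) := by
      calc M * |∑ t ∈ A, v t * (TT A v (fun i => f i.succ) (y - f 0 t) -
            TT A w (fun i => f i.succ) (y - f 0 t))|
          ≤ M * ∑ t ∈ A, |v t * (TT A v (fun i => f i.succ) (y - f 0 t) -
            TT A w (fun i => f i.succ) (y - f 0 t))| :=
            mul_le_mul_of_nonneg_left (Finset.abs_sum_le_sum_abs _ _) hM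
        _ = ∑ t ∈ A, M * |v t * (TT A v (fun i => f i.succ) (y - f 0 t) -
            TT A w (fun i => f i.succ) (y - f 0 t))| := Finset.mul_sum _ _ _
        _ ≤ ∑ t ∈ A, (if f 0 t < y then v t else 0) * (s * E * M ^ s) := Finset.sum_le_sum h1
        _ = S1 A v (f 0) y * (s * E * M ^ s) := by rw [S1, Finset.sum_mul]
        _ ≤ M * (s * E * M ^ s) := mul_le_mul_of_nonneg_right (hSv 0 y hy) (by positivity)
    have h3 := swap (M := M) (Y := Y) hw hM (fun x => v x - w x) (f 0) (hf 0) (hSE 0) s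
      (fun i => f i.succ) (fun i x => hf i.succ x) (fun i => hSw i.succ) y hy
    rw [h0]
    calc M * |∑ t ∈ A, v t * (TT A v (fun i => f i.succ) (y - f 0 t) -
          TT A w (fun i => f i.succ) (y - f 0 t)) +
          ∑ t ∈ A, (v t - w t) * TT A w (fun i => f i.succ) (y - f 0 t)|
        ≤ M * (|∑ t ∈ A, v t * (TT A v (fun i => f i.succ) (y - f 0 t) -
          TT A w (fun i => f i.succ) (y - f 0 t))| +
          |∑ t ∈ A, (v t - w t) * TT A w (fun i => f i.succ) (y - f 0 t)|) :=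
          mul_le_mul_of_nonneg_left (abs_add_le _ _) hM
      _ ≤ M * (s * E * M ^ s) + M * (E * M ^ s) := by
          rw [mul_add]
          exact add_le_add h2 (mul_le_mul_of_nonneg_left h3 hM)
      _ = ((s + 1 : ℕ) : ℝ) * E * M ^ (s + 1) := by push_cast; ring

end general

/-- the indicator of the positive integers -/
noncomputable def uu (x : ℕ) : ℝ := if x = 0 then 0 else 1

theorem uu_nonneg (x : ℕ) : 0 ≤ uu x := by unfold uu; split_ifs <;> norm_num

theorem sum_uu (N : ℕ) : ∑ x ∈ range (N + 1), uu x = N := by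
  rw [Finset.sum_range_succ']
  simp [uu]

theorem lam_nonneg (x : ℕ) : 0 ≤ lam x := by
  unfold lam
  split_ifs with h
  · exact Real.log_nonneg (by exact_mod_cast h.one_lt.le)
  · exact le_rfl

theorem wt_nonneg (x : ℕ) : 0 ≤ wt x := by unfold wt; split_ifs <;> norm_num

theorem sum_wt (N : ℕ) : ∑ x ∈ range (N + 1), wt x = 2 * N + 1 := by
  rw [Finset.sum_range_succ']
  simp [wt]
  ring

/-- the integers in terms of the absolute values -/
theorem sum_BX (ν : ℕ) (g : ℕ → ℝ) :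
    ∑ z ∈ BX ν, g z.natAbs = ∑ x ∈ range (2 ^ ν), wt x * g x := by
  have hm : ∀ z ∈ BX ν, z.natAbs ∈ range (2 ^ ν) := by
    intro z hz
    unfold BX at hz
    rw [Finset.mem_Ioo] at hz
    rw [Finset.mem_range]
    have : ((2 ^ ν : ℕ) : ℤ) = (2 : ℤ) ^ ν := by push_cast; rfl
    omega
  rw [← Finset.sum_fiberwise_of_maps_to hm]
  refine Finset.sum_congr rfl fun x hx => ?_
  rw [Finset.mem_range] at hx
  have hx' : (x : ℤ) < (2 : ℤ) ^ ν := by exact_mod_cast hx
  have h1 : (BX ν).filter (fun z => z.natAbs = x) = {(x : ℤ), -(x : ℤ)} := by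
    ext z
    unfold BX
    simp only [Finset.mem_filter, Finset.mem_Ioo, Finset.mem_insert, Finset.mem_singleton]
    constructor
    · rintro ⟨-, h⟩
      omega
    · rintro (h | h) <;> subst h <;> refine ⟨⟨by omega, by omega⟩, by omega⟩
  rw [Finset.sum_congr rfl (g := fun _ => g x) (fun z hz => by rw [(mem_filter.1 hz).2]),
    sum_const, h1, nsmul_eq_mul]
  congr 1
  unfold wt
  split_ifs with h
  · subst h; simp
  · rw [Finset.card_pair (by omega)]
    norm_num

theorem TT_BX (ν : ℕ) : ∀ (s : ℕ) (h : Fin s → ℕ → ℝ) (y : ℝ),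
    TT (BX ν) (fun _ => 1) (fun i z => h i z.natAbs) y = TT (range (2 ^ ν)) wt h y := by
  intro s
  induction s with
  | zero => intro h y; rw [TT_zero, TT_zero]
  | succ s ih =>
    intro h y
    rw [TT_succ, TT_succ, ← sum_BX ν (fun x => TT (range (2 ^ ν)) wt (fun i => h i.succ) (y - h 0 x))]
    refine Finset.sum_congr rfl fun z _ => ?_
    rw [one_mul, ih (fun i => h i.succ)]

theorem TT_two (P : ℕ) (s : ℕ) (f : Fin s → ℕ → ℝ) (y : ℝ) :
    TT (range P) (fun x => 2 * uu x) f y = 2 ^ s * TT (range P) uu f y := by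
  unfold TT
  rw [Finset.mul_sum]
  refine Finset.sum_congr rfl fun x _ => ?_
  split_ifs
  · rw [Finset.prod_mul_distrib, Finset.prod_const, Finset.card_univ, Fintype.card_fin]
  · rw [mul_zero]

theorem init_seg {k : ℕ} {a : ℝ} (ha : 0 < a) (y : ℝ) (P : ℕ) :
    ∃ Z : ℕ, (∀ w : ℕ → ℝ, S1 (range P) w (nk k a) y = ∑ x ∈ range Z, w x) ∧
      ∀ N : ℕ, Z = N + 1 → a * (N : ℝ) ^ k < y := by
  induction P with
  | zero => exact ⟨0, fun w => by simp [S1], fun N h => by omega⟩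
  | succ P ih =>
    by_cases h : nk k a P < y
    · refine ⟨P + 1, fun w => ?_, fun N hN => ?_⟩
      · unfold S1
        refine Finset.sum_congr rfl fun x hx => if_pos ?_
        refine lt_of_le_of_lt ?_ h
        unfold nk
        have hx' : (x : ℝ) ≤ P := by
          rw [Finset.mem_range] at hx
          exact_mod_cast Nat.le_of_lt_succ hx
        exact mul_le_mul_of_nonneg_left (pow_le_pow_left₀ (Nat.cast_nonneg _) hx' _) ha.le
      · have : N = P := by omega
        subst this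
        exact h
    · obtain ⟨Z, hZ1, hZ2⟩ := ih
      refine ⟨Z, fun w => ?_, hZ2⟩
      rw [← hZ1 w]
      unfold S1
      rw [Finset.sum_range_succ, if_neg h, add_zero]

theorem N_le {k : ℕ} (hk : 1 ≤ k) {a : ℝ} (ha : 0 < a) {Y : ℝ} {N : ℕ}
    (h : a * (N : ℝ) ^ k ≤ Y) : (N : ℝ) ≤ a ^ (-(1 / (k : ℝ))) * Y ^ (1 / (k : ℝ)) := by
  have hk0 : k ≠ 0 := by omega
  have h1 : ((N : ℝ) ^ k) ≤ Y / a := by
    rw [le_div_iff₀ ha]
    linarith
  have h2 : (N : ℝ) = ((N : ℝ) ^ k) ^ (1 / (k : ℝ)) := by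
    rw [one_div, Real.pow_rpow_inv_natCast (Nat.cast_nonneg _) hk0]
  have hY : 0 ≤ Y := le_trans (by positivity) h
  calc (N : ℝ) = ((N : ℝ) ^ k) ^ (1 / (k : ℝ)) := h2
    _ ≤ (Y / a) ^ (1 / (k : ℝ)) := Real.rpow_le_rpow (by positivity) h1 (by positivity)
    _ = _ := by rw [Real.div_rpow hY ha.le, Real.rpow_neg ha.le]; ring

theorem log_pow (B k : ℕ) (hk : 1 ≤ k) : ∃ C : ℝ, 0 < C ∧ ∀ Y : ℝ, 1 ≤ Y →
    Real.log Y ^ B ≤ C * Y ^ (1 / (2 * (k : ℝ))) := by
  have hk' : (1 : ℝ) ≤ k := by exact_mod_cast hk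
  set ε : ℝ := 1 / (2 * k * (B + 1)) with hε
  have hε0 : 0 < ε := by positivity
  refine ⟨(1 / ε) ^ B, by positivity, fun Y hY => ?_⟩
  have h1 := Real.log_le_rpow_div (by linarith : (0 : ℝ) ≤ Y) hε0
  have hl : 0 ≤ Real.log Y := Real.log_nonneg hY
  calc Real.log Y ^ B ≤ (Y ^ ε / ε) ^ B := pow_le_pow_left₀ hl h1 B
    _ = (1 / ε) ^ B * (Y ^ ε) ^ B := by rw [← mul_pow]; congr 1; ring
    _ ≤ (1 / ε) ^ B * Y ^ (1 / (2 * (k : ℝ))) := by
        refine mul_le_mul_of_nonneg_left ?_ (by positivity)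
        rw [← Real.rpow_natCast, ← Real.rpow_mul (by linarith)]
        refine Real.rpow_le_rpow_of_exponent_le hY ?_
        rw [hε, div_mul_eq_mul_div, one_mul, div_le_div_iff₀ (by positivity) (by positivity)]
        have : (0 : ℝ) ≤ B := Nat.cast_nonneg _
        nlinarith

theorem one_var (h : S_PPNT) (B k : ℕ) (hk : 1 ≤ k) (c : ℝ) (hc : 0 < c) : ∃ C : ℝ, 0 < C ∧
    ∀ Y : ℝ, 2 ≤ Y → ∀ N : ℕ, (N : ℝ) ≤ c * Y ^ (1 / (k : ℝ)) →
      |∑ x ∈ range (N + 1), (lam x - uu x)| ≤ C * (Y ^ (1 / (k : ℝ)) / Real.log Y ^ B) := by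
  obtain ⟨C0, hC0, hlog⟩ := log_pow B k hk
  obtain ⟨C1, hC1, hpnt⟩ := h B
  have hk' : (1 : ℝ) ≤ k := by exact_mod_cast hk
  have hl2 : 0 < Real.log 2 := Real.log_pos (by norm_num)
  refine ⟨C0 + C1 * C0 / Real.log 2 ^ B + C1 * c * (2 * k) ^ B, by positivity,
    fun Y hY N hN => ?_⟩
  have hY0 : 0 < Y := by linarith
  have hlY : 0 < Real.log Y := Real.log_pos (by linarith)
  have hlB : 0 < Real.log Y ^ B := pow_pos hlY B
  have hYk : 0 < Y ^ (1 / (k : ℝ)) := Real.rpow_pos_of_pos hY0 _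
  set δ : ℝ := Y ^ (1 / (k : ℝ)) / Real.log Y ^ B with hδ
  have hδ0 : 0 < δ := by positivity
  have hroot : Y ^ (1 / (2 * (k : ℝ))) * Y ^ (1 / (2 * (k : ℝ))) = Y ^ (1 / (k : ℝ)) := by
    rw [← Real.rpow_add hY0]
    congr 1
    field_simp
    norm_num
  have hr1 : 1 ≤ Y ^ (1 / (2 * (k : ℝ))) := Real.one_le_rpow (by linarith) (by positivity)
  have hhalf : Y ^ (1 / (2 * (k : ℝ))) ≤ C0 * δ := by
    rw [hδ, ← mul_div_assoc, le_div_iff₀ hlB, ← hroot]
    have := hlog Y (by linarith)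
    nlinarith
  have hsum : ∑ x ∈ range (N + 1), (lam x - uu x) = ∑ x ∈ range (N + 1), lam x - N := by
    rw [Finset.sum_sub_distrib, sum_uu]
  rw [hsum]
  have t1 : 0 ≤ C1 * C0 / Real.log 2 ^ B * δ := by positivity
  have t2 : 0 ≤ C1 * c * (2 * k) ^ B * δ := by positivity
  have t0 : 0 ≤ C0 * δ := by positivity
  have hexp : (C0 + C1 * C0 / Real.log 2 ^ B + C1 * c * (2 * k) ^ B) * δ =
      C0 * δ + C1 * C0 / Real.log 2 ^ B * δ + C1 * c * (2 * k) ^ B * δ := by ring
  rw [hexp]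
  rcases Nat.lt_or_ge N 2 with hN2 | hN2
  · have h1 : |∑ x ∈ range (N + 1), lam x - N| ≤ 1 := by
      interval_cases N
      · simp [lam]
      · rw [Finset.sum_range_succ, Finset.sum_range_one]
        simp [lam, Nat.not_prime_zero, Nat.not_prime_one]
    linarith
  · have h1 := hpnt N hN2
    have hN0 : (2 : ℝ) ≤ N := by exact_mod_cast hN2
    have hlN : 0 < Real.log N := Real.log_pos (by linarith)
    rcases le_total (N : ℝ) (Y ^ (1 / (2 * (k : ℝ)))) with h2 | h2
    · have h3 : C1 * (N / Real.log N ^ B) ≤ C1 * C0 / Real.log 2 ^ B * δ := by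
        have h4 : (N : ℝ) / Real.log N ^ B ≤ (C0 * δ) / Real.log 2 ^ B := by
          refine div_le_div₀ t0 (h2.trans hhalf) (by positivity) ?_
          exact pow_le_pow_left₀ hl2.le (Real.log_le_log (by norm_num) hN0) B
        calc C1 * (N / Real.log N ^ B) ≤ C1 * ((C0 * δ) / Real.log 2 ^ B) :=
              mul_le_mul_of_nonneg_left h4 hC1.le
          _ = _ := by ring
      linarith
    · have h5 : Real.log Y / (2 * k) ≤ Real.log N := by
        have := Real.log_le_log (Real.rpow_pos_of_pos hY0 _) h2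
        rw [Real.log_rpow hY0] at this
        calc Real.log Y / (2 * k) = 1 / (2 * (k : ℝ)) * Real.log Y := by ring
          _ ≤ _ := this
      have h3 : C1 * (N / Real.log N ^ B) ≤ C1 * c * (2 * k) ^ B * δ := by
        have h4 : (N : ℝ) / Real.log N ^ B ≤
            (c * Y ^ (1 / (k : ℝ))) / (Real.log Y / (2 * k)) ^ B := by
          refine div_le_div₀ (by positivity) hN (by positivity) ?_
          exact pow_le_pow_left₀ (by positivity) h5 B
        calc C1 * (N / Real.log N ^ B) ≤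
              C1 * ((c * Y ^ (1 / (k : ℝ))) / (Real.log Y / (2 * k)) ^ B) :=
              mul_le_mul_of_nonneg_left h4 hC1.le
          _ = _ := by
              rw [hδ, div_pow]
              field_simp
      linarith

theorem CW_eq {s : ℕ} (A : Finset ℕ) (w : ℕ → ℝ) (f : Fin s → ℕ → ℝ) (y : ℝ) :
    CW (fun _ => A) w f y = TT A w f y := by
  unfold CW TT
  rw [Finset.sum_filter]

theorem CF_eq {s k : ℕ} (hk : 1 ≤ k) (α : Fin s → ℝ) (hα : ∀ i, 0 < α i) (ν : ℕ) (y : ℝ)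
    (hy : ∀ i, y ≤ α i * ((2 : ℝ) ^ ν) ^ k) :
    (CF (fun i x => α i * |(x : ℝ) - (0 : Fin s → ℝ) i| ^ k) y : ℝ) =
      TT (range (2 ^ ν)) wt (fun i => nk k (α i)) y := by
  classical
  rw [← TT_BX ν s (fun i => nk k (α i)) y]
  have h1 : ∀ (i : Fin s) (z : ℤ), nk k (α i) z.natAbs = α i * |(z : ℝ)| ^ k := by
    intro i z
    unfold nk
    rw [Nat.cast_natAbs, Int.cast_abs]
  have h2 : {x : Fin s → ℤ | ∑ i, α i * |((x i : ℤ) : ℝ) - (0 : Fin s → ℝ) i| ^ k < y} =
      ↑((Fintype.piFinset (fun _ : Fin s => BX ν)).filter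
        (fun x => ∑ i, nk k (α i) (x i).natAbs < y)) := by
    ext x
    simp only [Set.mem_ofPred_eq, Finset.coe_filter, Fintype.mem_piFinset, h1, Pi.zero_apply,
      sub_zero]
    constructor
    · intro hx
      refine ⟨fun i => ?_, hx⟩
      have h3 : α i * |((x i : ℤ) : ℝ)| ^ k < α i * ((2 : ℝ) ^ ν) ^ k := by
        refine lt_of_lt_of_le (lt_of_le_of_lt ?_ hx) (hy i)
        exact Finset.single_le_sum (f := fun i => α i * |((x i : ℤ) : ℝ)| ^ k)
          (fun j _ => mul_nonneg (hα j).le (by positivity)) (Finset.mem_univ i)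
      have h4 : |((x i : ℤ) : ℝ)| < (2 : ℝ) ^ ν :=
        lt_of_pow_lt_pow_left₀ k (by positivity) (lt_of_mul_lt_mul_left h3 (hα i).le)
      unfold BX
      rw [Finset.mem_Ioo]
      rw [abs_lt] at h4
      constructor
      · have := h4.1
        exact_mod_cast this
      · have := h4.2
        exact_mod_cast this
    · intro hx
      exact hx.2
  unfold CF
  rw [h2, Set.ncard_coe_finset, Finset.card_filter]
  unfold TT
  push_cast
  refine Finset.sum_congr rfl fun x _ => ?_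
  split_ifs <;> simp

theorem plat (h : S_PPNT) (h2 : S_ALAT) : S_PLAT := by
  intro s k α B hs hk hα
  obtain ⟨CL, hCL, hlog⟩ := log_pow B k hk
  obtain ⟨C2, hC2, hlat⟩ := h2 s k α 0 hs hk hα
  set c : ℝ := ∑ i, α i ^ (-(1 / (k : ℝ))) with hc
  have : Nonempty (Fin s) := ⟨⟨0, by omega⟩⟩
  have hc0 : 0 < c := Finset.sum_pos (fun i _ => Real.rpow_pos_of_pos (hα i) _)
    Finset.univ_nonempty
  have hci : ∀ i, α i ^ (-(1 / (k : ℝ))) ≤ c := fun i =>
    Finset.single_le_sum (f := fun i => α i ^ (-(1 / (k : ℝ))))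
      (fun j _ => (Real.rpow_pos_of_pos (hα j) _).le) (Finset.mem_univ i)
  obtain ⟨CA, hCA, hone⟩ := one_var h B k hk c hc0
  have hl2 : 0 < Real.log 2 := Real.log_pos (by norm_num)
  have hk' : (1 : ℝ) ≤ k := by exact_mod_cast hk
  set C0 : ℝ := 2 * c + 1 + CA / Real.log 2 ^ B + CA + CL with hC0
  have hC0p : 0 < C0 := by positivity
  refine ⟨2 * (s * C0 ^ s) + C2 * C0, by positivity, fun ν Y hY hYα => ?_⟩
  have hY0 : 0 < Y := by linarith
  have hlY : 0 < Real.log Y := Real.log_pos (by linarith)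
  have hlB : 0 < Real.log Y ^ B := pow_pos hlY B
  have hYk : 0 < Y ^ (1 / (k : ℝ)) := Real.rpow_pos_of_pos hY0 _
  have hYk1 : 1 ≤ Y ^ (1 / (k : ℝ)) := Real.one_le_rpow (by linarith) (by positivity)
  set X : ℝ := Y ^ (1 / (k : ℝ)) with hX
  set L : ℝ := Real.log Y ^ B with hL
  set M : ℝ := C0 * X with hM
  set E : ℝ := C0 * (X / L) with hE
  have hM0 : 0 < M := by positivity
  have hE0 : 0 < E := by positivity
  have hL2 : Real.log 2 ^ B ≤ L := pow_le_pow_left₀ hl2.le (Real.log_le_log (by norm_num) hY) B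
  have hLX : L ≤ CL * X := by
    have h3 := hlog Y (by linarith)
    refine h3.trans (mul_le_mul_of_nonneg_left ?_ hCL.le)
    refine Real.rpow_le_rpow_of_exponent_le (by linarith) ?_
    refine one_div_le_one_div_of_le (by linarith) (by linarith)
  have h1E : 1 ≤ E := by
    have : 1 ≤ CL * (X / L) := by
      rw [← mul_div_assoc, le_div_iff₀ hlB, one_mul]
      exact hLX
    refine this.trans (mul_le_mul_of_nonneg_right ?_ (by positivity))
    rw [hC0]
    have : 0 ≤ CA / Real.log 2 ^ B := by positivity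
    linarith
  -- the sums in one variable
  have key : ∀ (i : Fin s) (y : ℝ), y ≤ Y → ∃ Z : ℕ,
      (∀ w : ℕ → ℝ, S1 (range (2 ^ ν)) w (nk k (α i)) y = ∑ x ∈ range Z, w x) ∧
      ∀ N : ℕ, Z = N + 1 → (N : ℝ) ≤ c * X := by
    intro i y hy
    obtain ⟨Z, hZ1, hZ2⟩ := init_seg (k := k) (hα i) y (2 ^ ν)
    refine ⟨Z, hZ1, fun N hN => ?_⟩
    refine (N_le hk (hα i) ((hZ2 N hN).le.trans hy)).trans ?_
    exact mul_le_mul_of_nonneg_right (hci i) hYk.le
  have hcX : 0 ≤ c * X := by positivity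
  have hAX : 0 ≤ CA / Real.log 2 ^ B * X := by positivity
  have hAX' : 0 ≤ CA * X := by positivity
  have hLX' : 0 ≤ CL * X := by positivity
  have hMexp : M = 2 * (c * X) + X + CA / Real.log 2 ^ B * X + CA * X + CL * X := by
    rw [hM, hC0]; ring
  have buu : ∀ (i : Fin s), ∀ y ≤ Y, S1 (range (2 ^ ν)) uu (nk k (α i)) y ≤ M := by
    intro i y hy
    obtain ⟨Z, hZ1, hZ2⟩ := key i y hy
    rw [hZ1]
    rcases Z with _ | N
    · simpa using hM0.le
    · rw [sum_uu]
      have := hZ2 N rfl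
      rw [hMexp]
      linarith
  have b2u : ∀ (i : Fin s), ∀ y ≤ Y, S1 (range (2 ^ ν)) (fun x => 2 * uu x) (nk k (α i)) y ≤ M := by
    intro i y hy
    obtain ⟨Z, hZ1, hZ2⟩ := key i y hy
    rw [hZ1]
    rcases Z with _ | N
    · simpa using hM0.le
    · rw [← Finset.mul_sum, sum_uu]
      have := hZ2 N rfl
      rw [hMexp]
      linarith
  have bwt : ∀ (i : Fin s), ∀ y ≤ Y, S1 (range (2 ^ ν)) wt (nk k (α i)) y ≤ M := by
    intro i y hy
    obtain ⟨Z, hZ1, hZ2⟩ := key i y hy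
    rw [hZ1]
    rcases Z with _ | N
    · simpa using hM0.le
    · rw [sum_wt]
      have := hZ2 N rfl
      rw [hMexp]
      linarith
  have blu : ∀ (i : Fin s), ∀ y ≤ Y,
      |S1 (range (2 ^ ν)) (fun x => lam x - uu x) (nk k (α i)) y| ≤ CA * (X / L) := by
    intro i y hy
    obtain ⟨Z, hZ1, hZ2⟩ := key i y hy
    rw [hZ1]
    rcases Z with _ | N
    · simp only [Finset.range_zero, Finset.sum_empty, abs_zero]
      positivity
    · exact hone Y hY N (hZ2 N rfl)
  have bluE : ∀ (i : Fin s), ∀ y ≤ Y,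
      |S1 (range (2 ^ ν)) (fun x => lam x - uu x) (nk k (α i)) y| ≤ E := by
    intro i y hy
    refine (blu i y hy).trans (mul_le_mul_of_nonneg_right ?_ (by positivity))
    rw [hC0]
    have : 0 ≤ CA / Real.log 2 ^ B := by positivity
    linarith
  have blam : ∀ (i : Fin s), ∀ y ≤ Y, S1 (range (2 ^ ν)) lam (nk k (α i)) y ≤ M := by
    intro i y hy
    have e1 : S1 (range (2 ^ ν)) lam (nk k (α i)) y = S1 (range (2 ^ ν)) uu (nk k (α i)) y +
        S1 (range (2 ^ ν)) (fun x => lam x - uu x) (nk k (α i)) y := by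
      unfold S1
      rw [← Finset.sum_add_distrib]
      refine Finset.sum_congr rfl fun x _ => ?_
      split_ifs <;> ring
    obtain ⟨Z, hZ1, hZ2⟩ := key i y hy
    have e2 : S1 (range (2 ^ ν)) uu (nk k (α i)) y ≤ c * X := by
      rw [hZ1]
      rcases Z with _ | N
      · simpa using hcX
      · rw [sum_uu]
        exact hZ2 N rfl
    have e3 := (abs_le.1 (blu i y hy)).2
    have e4 : CA * (X / L) ≤ CA / Real.log 2 ^ B * X := by
      calc CA * (X / L) = CA * X / L := by ring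
        _ ≤ CA * X / Real.log 2 ^ B := div_le_div_of_nonneg_left (by positivity) (by positivity) hL2
        _ = _ := by ring
    rw [e1, hMexp]
    linarith
  have bwu : ∀ (i : Fin s), ∀ y ≤ Y,
      |S1 (range (2 ^ ν)) (fun x => wt x - 2 * uu x) (nk k (α i)) y| ≤ E := by
    intro i y hy
    obtain ⟨Z, hZ1, hZ2⟩ := key i y hy
    rw [hZ1]
    rcases Z with _ | N
    · simpa using hE0.le
    · rw [Finset.sum_sub_distrib, ← Finset.mul_sum, sum_uu, sum_wt]
      rw [show 2 * (N : ℝ) + 1 - 2 * N = 1 by ring, abs_one]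
      exact h1E
  have hf : ∀ (i : Fin s) (x : ℕ), 0 ≤ nk k (α i) x := fun i x =>
    mul_nonneg (hα i).le (by positivity)
  have d1 := diff (A := range (2 ^ ν)) (v := lam) (w := uu) lam_nonneg uu_nonneg hM0.le hE0.le s
    (fun i => nk k (α i)) hf blam buu bluE Y le_rfl
  have d2 := diff (A := range (2 ^ ν)) (v := wt) (w := fun x => 2 * uu x) wt_nonneg
    (fun x => mul_nonneg (by norm_num) (uu_nonneg x)) hM0.le hE0.le s
    (fun i => nk k (α i)) hf bwt b2u bwu Y le_rfl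
  have hEM : E = M / L := by rw [hE, hM]; ring
  have hMs : M ^ s = C0 ^ s * Y ^ ((s : ℝ) / k) := by
    rw [hM, mul_pow, hX, ← Real.rpow_natCast (Y ^ (1 / (k : ℝ))), ← Real.rpow_mul hY0.le]
    congr 2
    ring
  have conv : ∀ t : ℝ, M * t ≤ s * E * M ^ s → t ≤ s * C0 ^ s * (Y ^ ((s : ℝ) / k) / L) := by
    intro t ht
    have : M * t ≤ M * (s * C0 ^ s * (Y ^ ((s : ℝ) / k) / L)) := by
      refine ht.trans (le_of_eq ?_)
      rw [hEM, hMs]
      ring
    exact le_of_mul_le_mul_left this hM0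
  have d1' := conv _ d1
  have d2' := conv _ d2
  rw [TT_two] at d2'
  have hlat' := hlat Y (by linarith)
  rw [CF_eq hk α hα ν Y hYα] at hlat'
  rw [CW_eq]
  set Tl : ℝ := TT (range (2 ^ ν)) lam (fun i => nk k (α i)) Y with hTl
  set Tu : ℝ := TT (range (2 ^ ν)) uu (fun i => nk k (α i)) Y with hTu
  set Tw : ℝ := TT (range (2 ^ ν)) wt (fun i => nk k (α i)) Y with hTw
  set V : ℝ := Real.Gamma (1 + 1 / (k : ℝ)) ^ s / Real.Gamma (1 + (s : ℝ) / k) *
    (∏ i, α i ^ (-(1 / (k : ℝ)))) * Y ^ ((s : ℝ) / k) with hV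
  have hV2 : (2 * Real.Gamma (1 + 1 / (k : ℝ))) ^ s / Real.Gamma (1 + (s : ℝ) / k) *
      (∏ i, α i ^ (-(1 / (k : ℝ)))) * Y ^ ((s : ℝ) / k) = 2 ^ s * V := by
    rw [hV, mul_pow]; ring
  rw [hV2] at hlat'
  set δ : ℝ := Y ^ ((s : ℝ) / k) / L with hδ
  have hδ0 : 0 < δ := by positivity
  have hlow : Y ^ (((s : ℝ) - 1) / k) ≤ C0 * δ := by
    have e1 : Y ^ ((s : ℝ) / k) = Y ^ (((s : ℝ) - 1) / k) * X := by
      rw [hX, ← Real.rpow_add hY0]
      congr 1
      ring
    have e2 : 0 < Y ^ (((s : ℝ) - 1) / k) := Real.rpow_pos_of_pos hY0 _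
    have e3 : C0 * δ = Y ^ (((s : ℝ) - 1) / k) * E := by
      rw [hδ, hE, e1]; ring
    rw [e3]
    nlinarith
  have h2s : (1 : ℝ) ≤ 2 ^ s := one_le_pow₀ (by norm_num)
  have hdiv : |2 ^ s * Tu - 2 ^ s * V| ≤ s * C0 ^ s * δ + C2 * (C0 * δ) := by
    have e1 : |2 ^ s * Tu - 2 ^ s * V| ≤ |Tw - 2 ^ s * Tu| + |Tw - 2 ^ s * V| := by
      have : 2 ^ s * Tu - 2 ^ s * V = (Tw - 2 ^ s * V) - (Tw - 2 ^ s * Tu) := by ring
      rw [this]
      have := abs_sub (Tw - 2 ^ s * V) (Tw - 2 ^ s * Tu)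
      linarith
    refine e1.trans (add_le_add d2' (hlat'.trans ?_))
    exact mul_le_mul_of_nonneg_left hlow hC2.le
  have hdiv' : |Tu - V| ≤ s * C0 ^ s * δ + C2 * (C0 * δ) := by
    have e1 : |2 ^ s * Tu - 2 ^ s * V| = 2 ^ s * |Tu - V| := by
      rw [← mul_sub, abs_mul, abs_of_pos (by positivity : (0 : ℝ) < 2 ^ s)]
    rw [e1] at hdiv
    refine le_trans ?_ hdiv
    have := abs_nonneg (Tu - V)
    nlinarith
  have hfin : |Tl - V| ≤ |Tl - Tu| + |Tu - V| := abs_sub_le _ _ _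
  have hres : (2 * (s * C0 ^ s) + C2 * C0) * Y ^ ((s : ℝ) / k) / L =
      s * C0 ^ s * δ + (s * C0 ^ s * δ + C2 * (C0 * δ)) := by
    rw [hδ]; ring
  rw [hres]
  linarith

end Pool.Agent.N667.AP
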