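import Pool.Agent.N819.UD.Stm

/-!
Project UD (helper819), CYC: a chordless alternating cycle (helper667).
-/

set_option autoImplicit false

namespace Pool.Agent.N667.UDC

theorem main : Pool.Agent.N819.UD.S_CYC := by
  classical
  intro E _ _ P Q A B hA h
  let C : Finset E → Prop := fun W => W.Nonempty ∧ (∀ e ∈ W, e ∈ A) ∧
    ∀ e0 ∈ W, ∃ e1 ∈ W, ∃ b ∈ B, P e1 b ∧ Q b e0
  have hex : ∃ k : ℕ, ∃ W : Finset E, C W ∧ W.card = k := by
    refine ⟨_, A.toFinite.toFinset, ⟨?_, ?_, ?_⟩, rfl⟩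
    · obtain ⟨x, hx⟩ := hA
      exact ⟨x, (Set.Finite.mem_toFinset _).2 hx⟩
    · intro e he
      exact (Set.Finite.mem_toFinset _).1 he
    · intro e he
      obtain ⟨e1, he1, b, hb, h1, h2⟩ := h e ((Set.Finite.mem_toFinset _).1 he)
      exact ⟨e1, (Set.Finite.mem_toFinset _).2 he1, b, hb, h1, h2⟩
  obtain ⟨W, hW, hWk⟩ := Nat.find_spec hex
  have hmin : ∀ W' : Finset E, C W' → W.card ≤ W'.card := by
    intro W' h'
    rw [hWk]
    exact Nat.find_min' hex ⟨W', h', rfl⟩
  obtain ⟨w0, hw0⟩ := hW.1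
  have hne : Nonempty E := ⟨w0⟩
  have claim1 : ∀ π : E → E, (∀ e0 ∈ W, π e0 ∈ W ∧ ∃ b ∈ B, P (π e0) b ∧ Q b e0) →
      W.image π = W ∧ ∀ x ∈ W, ∀ y ∈ W, π x = π y → x = y := by
    intro π hπ
    have hsub : W.image π ⊆ W := by
      intro x hx
      obtain ⟨y, hy, rfl⟩ := Finset.mem_image.1 hx
      exact (hπ y hy).1
    have hC : C (W.image π) := by
      refine ⟨⟨π w0, Finset.mem_image_of_mem π hw0⟩, fun e he => hW.2.1 e (hsub he), fun e he => ?_⟩
      exact ⟨π e, Finset.mem_image_of_mem π (hsub he), (hπ e (hsub he)).2⟩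
    have hcard := hmin _ hC
    have heq : W.image π = W := Finset.eq_of_subset_of_card_le hsub hcard
    refine ⟨heq, fun x hx y hy hxy => ?_⟩
    have hinj : Set.InjOn π (W : Set E) := Finset.card_image_iff.1 (by rw [heq])
    exact hinj hx hy hxy
  choose! π hπ using hW.2.2
  obtain ⟨him, hinj⟩ := claim1 π hπ
  have claim2 : ∀ e1 ∈ W, ∀ e0 ∈ W, ∀ b ∈ B, P e1 b → Q b e0 → e1 = π e0 := by
    intro e1 he1 e0 he0 b hb h1 h2
    by_contra hcon
    have h3 := claim1 (Function.update π e0 e1) (fun e he => by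
      by_cases hee : e = e0
      · subst hee
        rw [Function.update_self]
        exact ⟨he1, b, hb, h1, h2⟩
      · rw [Function.update_of_ne hee]
        exact hπ e he)
    have h4 : e1 ∈ W.image π := by
      rw [him]
      exact he1
    obtain ⟨e', he', h5⟩ := Finset.mem_image.1 h4
    have h6 : e' ≠ e0 := by
      rintro rfl
      exact hcon h5.symm
    have h7 := h3.2 e' he' e0 he0 (by
      rw [Function.update_of_ne h6, Function.update_self, h5])
    exact h6 h7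
  have hσ' : ∀ e ∈ W, ∃ s ∈ W, π s = e := by
    intro e he
    have h4 : e ∈ W.image π := by
      rw [him]
      exact he
    exact Finset.mem_image.1 h4
  choose! σ hσ using hσ'
  have hβ' : ∀ e ∈ W, ∃ b ∈ B, P e b ∧ Q b (σ e) := by
    intro e he
    have h4 := (hπ (σ e) (hσ e he).1).2
    rwa [(hσ e he).2] at h4
  choose! β hβ using hβ'
  refine ⟨W, β, σ, ⟨w0, hw0⟩, hW.2.1, fun e he => (hβ e he).1, fun e he => (hσ e he).1,
    fun e he e' he' hee => ?_, fun e he e' he' => ⟨fun h1 => ?_, fun h1 => ?_⟩,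
    fun e he e' he' => ⟨fun h1 => ?_, fun h1 => ?_⟩⟩
  · rw [← (hσ e he).2, hee, (hσ e' he').2]
  · have h2 := claim2 e he (σ e') (hσ e' he').1 (β e') (hβ e' he').1 h1 (hβ e' he').2.2
    rw [h2, (hσ e' he').2]
  · subst h1
    exact (hβ e he).2.1
  · have h2 := claim2 e he e' he' (β e) (hβ e he).1 (hβ e he).2.1 h1
    exact hinj e' he' (σ e) (hσ e he).1 (by rw [← h2, (hσ e he).2])
  · subst h1
    exact (hβ e he).2.2

end Pool.Agent.N667.UDC
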